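import Pool.Agent.H535Z.HG.St

set_option autoImplicit false

/-!
Fixed points and a loxodromic element in the cone-off.
-/

namespace Pool.Agent.H482Z.HG

open Pool.Agent.H668Z.SC Pool.Agent.H535Z.HG GS

theorem thm_fp : S_fp := by
  intro G W _ _ Y C θ hI hB hC hCC H x r hr
  classical
  have hex : ∃ ρ, ∃ y, ∀ h ∈ H, Y.d y (h • x) ≤ ρ := ⟨r, x, hr⟩
  obtain ⟨y, hy⟩ := Nat.find_spec hex
  have hmin := fun m => Nat.find_min hex (m := m)
  generalize Nat.find hex = ρ at hy hmin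
  have hinv : ∀ z, (∀ h ∈ H, Y.d z (h • x) ≤ ρ) → ∀ g ∈ H, ∀ h ∈ H, Y.d (g • z) (h • x) ≤ ρ := by
    intro z hz g hg h hh
    have := hz (g⁻¹ * h) (mul_mem (inv_mem hg) hh)
    rwa [← hI g, smul_smul, mul_inv_cancel_left] at this
  have key : ∀ z z', (∀ h ∈ H, Y.d z (h • x) ≤ ρ) → (∀ h ∈ H, Y.d z' (h • x) ≤ ρ) →
      ∀ c, Y.Dle c z z' (2 * θ) := by
    intro z z' hz hz' c
    by_contra hn
    have h0 := hB.btw (Set.mem_univ c) (by omega) hn
    obtain ⟨n1, n2⟩ := ne_of_not_dle hn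
    have p1 := d_pos (X := Y) n1
    have p2 := d_pos (X := Y) n2
    have hρ : 0 < ρ := by
      have a1 := hz 1 H.one_mem
      have a2 := hz' 1 H.one_mem
      have a3 := Y.tri z ((1 : G) • x) z'
      have a4 := Y.symm z' ((1 : G) • x)
      unfold GS.Btw at h0
      omega
    refine hmin (ρ - 1) (by omega) ⟨c, fun h hh => ?_⟩
    by_cases e : h • x = c
    · rw [e, Y.d_self]; omega
    have a1 := hz h hh
    have a2 := hz' h hh
    by_cases b1 : Y.Btw z c (h • x)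
    · unfold GS.Btw at b1; omega
    by_cases b2 : Y.Btw z' c (h • x)
    · unfold GS.Btw at b2; omega
    exact absurd (((hB c trivial _ _ b1).trans e (hB c trivial _ _ b2).symm).mono (by omega)) hn
  by_cases hyC : y ∈ C
  swap
  · exact Or.inr ⟨y, hyC, fun h hh c _ => (key y _ hy (hinv y hy h hh) c).mono (by omega)⟩
  by_cases hfix : ∀ h ∈ H, h • y = y
  · exact Or.inl ⟨y, hyC, hfix⟩
  push Not at hfix
  obtain ⟨h₀, hh₀, hne⟩ := hfix
  obtain ⟨p, hp1, hp2⟩ := exists_pr (X := Y) hne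
  have hpC : p ∉ C := fun hp => hCC y hyC p hp hp1
  have near : ∀ c ∈ C, ∃ a, (∀ h ∈ H, Y.d a (h • x) ≤ ρ) ∧ a ≠ c ∧ Y.Dle c p a θ := by
    intro c hc
    have s1 := Y.symm y p
    by_cases e : y = c
    · subst e
      exact ⟨_, hinv y hy h₀ hh₀, hne, hB y trivial _ _ (by unfold GS.Btw; omega)⟩
    · refine ⟨y, hy, e, hB c trivial _ _ ?_⟩
      have a1 := d_pos (X := Y) (Ne.symm e)
      have a2 := d_pos (X := Y) (show p ≠ c from fun h => hpC (h ▸ hc))
      unfold GS.Btw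
      omega
  refine Or.inr ⟨p, hpC, fun h hh c hc => ?_⟩
  obtain ⟨a, ha, hac, h1⟩ := near c hc
  obtain ⟨b, hb, hbc, h2⟩ := near _ (hC h⁻¹ c hc)
  have h3 := hI.dle h h2
  rw [smul_inv_smul] at h3
  exact ((h1.trans hac (key a _ ha (hinv b hb h hh) c)).trans
    (fun e => hbc (by rw [← e, inv_smul_smul])) h3.symm).mono (by omega)

theorem thm_fix : S_fix := by
  intro G W _ _ Y C θ T hI hB hC f p q c hf hp hq hc hT hn
  have hne : ∀ (g : G) (u : W), u ∉ C → g • u ≠ c := fun g u hu e =>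
    hu (by simpa [← e] using hC g⁻¹ c hc)
  have h1 : ∀ j k : ℕ, ¬ Y.Dle c (f ^ j • p) (f ^ k • q) (2 * θ) := fun j k h =>
    hn ((((hT j).1.trans (hne _ _ hp) h).trans (hne _ _ hq) (hT k).2.symm).mono (by omega))
  have h2 : ∀ j k : ℕ, Y.d (f ^ j • p) c + Y.d c (f ^ k • q) = Y.d (f ^ j • p) (f ^ k • q) :=
    fun j k => hB.btw hc (by omega) (h1 j k)
  have h3 : ∀ j : ℕ, Y.d c (f ^ (j + 1) • q) + Y.d p q = Y.d c (f ^ j • q) + Y.d p (f • q) := by
    intro j
    have a1 := h2 j j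
    have a2 := h2 j (j + 1)
    rw [hI] at a1
    rw [pow_succ, mul_smul, hI] at a2
    rw [pow_succ, mul_smul]
    omega
  have h4 : ∀ j : ℕ, Y.d c (f ^ j • q) + j * Y.d p q = Y.d c q + j * Y.d p (f • q) := by
    intro j
    induction j with
    | zero => simp
    | succ j ih =>
      have := h3 j
      rw [add_mul, add_mul]
      omega
  obtain ⟨n, hn0, hn1⟩ := isOfFinOrder_iff_pow_eq_one.mp hf
  have h5 : Y.d p q = Y.d p (f • q) := by
    have := h4 n
    rw [hn1, one_smul] at this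
    exact Nat.eq_of_mul_eq_mul_left hn0 (by omega)
  have a0 := h2 0 0
  have a1 := h2 0 1
  have a2 := h2 1 1
  have a3 := h1 0 0
  simp only [pow_zero, one_smul, pow_one, hI f] at a0 a1 a2 a3
  have b1 : Y.d p (f⁻¹ • c) = Y.d (f • p) c := by rw [← hI f, smul_inv_smul]
  have b2 : Y.d (f⁻¹ • c) q = Y.d c (f • q) := hI.d_inv _ _ _
  have hz : f⁻¹ • c = c := by
    have s := Y.symm c (f⁻¹ • c)
    apply Y.eq_of_d
    rcases hB.all hc a3 (z := f⁻¹ • c) (by unfold GS.Btw; omega) with h | h <;>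
      unfold GS.Btw at h <;> omega
  rw [inv_smul_eq_iff] at hz
  exact hz.symm

theorem thm_ex : S_ex := by
  intro G W _ _ Y o c E hY hE a g hg hag
  obtain ⟨δ, hδ⟩ := hY.hyp
  have hI := hY.iso
  obtain ⟨θ, hB⟩ : ∃ θ, BGI Y Set.univ θ := ⟨_, fun c _ a b h => hδ.four.dle h⟩
  have fin : ∀ y y', y ≠ c → y' ≠ c → {x : G | x ∈ E ∧ Y.Dle c y (x • y') θ}.Finite := by
    intro y y' hy hy'
    obtain ⟨u, hu⟩ := exists_pr (X := Y) hy
    obtain ⟨u', hu'⟩ := exists_pr (X := Y) hy'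
    obtain ⟨e, he, rfl⟩ := (hY.nb u).mp hu.1
    obtain ⟨e', he', rfl⟩ := (hY.nb u').mp hu'.1
    refine ((hY.fine θ).preimage (f := fun x => e⁻¹ * x * e') fun x _ x' _ h => by
      simpa using h).subset ?_
    rintro x ⟨hx, hd⟩
    refine ⟨mul_mem (mul_mem (inv_mem he) hx) he', ?_⟩
    have h1 := (hI.pr x).mpr hu'
    rw [(hY.stab x).mpr hx] at h1
    have h2 := hI.av e⁻¹ (hd _ _ hu h1)
    rwa [(hY.stab _).mpr (inv_mem he), inv_smul_smul, smul_smul, smul_smul] at h2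
  have n1 : g • c ≠ c := mt (hY.stab g).mp hg
  have n2 : (a⁻¹ * g) • c ≠ c := mt (hY.stab _).mp hag
  have n3 : g⁻¹ • c ≠ c := mt (hY.stab _).mp fun h => hg (by simpa using inv_mem h)
  have n4 : (g⁻¹ * a) • c ≠ c := mt (hY.stab _).mp fun h => hag (by simpa using inv_mem h)
  have hinf : (E : Set G).Infinite := Set.infinite_coe_iff.mp hE
  obtain ⟨x, hx, hx'⟩ := (hinf.sdiff ((fin _ _ n2 n1).union (fin _ _ n4 n3))).nonempty
  have d1 : ¬ Y.Dle c ((a⁻¹ * g) • c) (x • g • c) θ := fun h => hx' (Or.inl ⟨hx, h⟩)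
  have d2 : ¬ Y.Dle c ((g⁻¹ * a) • c) (x • g⁻¹ • c) θ := fun h => hx' (Or.inr ⟨hx, h⟩)
  have hxc : x⁻¹ • c = c := (hY.stab _).mpr (inv_mem hx)
  refine ⟨x, hx, fun m hm t ht => ?_⟩
  set h := a * x * g * x⁻¹ * g⁻¹ with hh
  have e1 : h • g • c = a • x • g • c := by
    rw [hh]
    simp only [mul_smul, inv_smul_smul, hxc]
  have e2 : h • g • x • g⁻¹ • c = a • c := by
    rw [hh]
    simp only [mul_smul, inv_smul_smul, smul_inv_smul, (hY.stab x).mpr hx]
  have d3 : ¬ Y.Dle (a • c) (g • c) (h • g • c) θ := by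
    rwa [← hI.dle_iff a, mul_smul, smul_inv_smul, ← e1] at d1
  have d4 : ¬ Y.Dle (h • g • c) (a • c) (h • a • c) θ := by
    rw [← hI.dle_iff g, mul_smul, smul_inv_smul, ← hI.dle_iff h, e2] at d2
    exact fun h => d2 h.symm
  have step : ∀ z u v w, Y.Btw z u v → ¬ Y.Dle v u w θ → Y.Btw z v w := by
    intro z u v w h1 h2
    by_contra h3
    exact h2 (dle_of_btw h1.symm (hB v trivial _ _ h3).symm).symm
  have grow : ∀ k : ℕ, Y.Btw (g • c) (h ^ k • g • c) (h ^ k • a • c) ∧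
      k ≤ Y.d (g • c) (h ^ k • g • c) := by
    intro k
    induction k with
    | zero => exact ⟨by simpa using btw_left _ _, Nat.zero_le _⟩
    | succ k ih =>
      have f3 := (hI.dle_iff (h ^ k)).not.mpr d3
      have f4 := (hI.dle_iff (h ^ k)).not.mpr d4
      have b1 := step _ _ _ _ ih.1 f3
      have b2 := step _ _ _ _ b1 f4
      have p1 := d_pos (X := Y) (ne_of_not_dle f3).1
      rw [pow_succ, mul_smul (h ^ k), mul_smul (h ^ k)]
      refine ⟨b2, ?_⟩
      have b0 := ih.1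
      have := ih.2
      unfold GS.Btw at b0 b1
      omega
  have hfix : h ^ m • t • c = t • c := by
    have := (hY.stab _).mpr ht
    rwa [mul_smul, mul_smul, inv_smul_eq_iff] at this
  have hfix' : ∀ k : ℕ, h ^ (m * k) • t • c = t • c := by
    intro k
    induction k with
    | zero => simp
    | succ k ih => rw [Nat.mul_succ, pow_add, mul_smul, hfix, ih]
  have g1 := (grow (m * (2 * Y.d (g • c) (t • c) + 1))).2
  have g2 := Y.tri (g • c) (t • c) (h ^ (m * (2 * Y.d (g • c) (t • c) + 1)) • g • c)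
  have g3 := hI (h ^ (m * (2 * Y.d (g • c) (t • c) + 1))) (t • c) (g • c)
  rw [hfix'] at g3
  have g4 := Y.symm (t • c) (g • c)
  have g5 := Nat.le_mul_of_pos_left (2 * Y.d (g • c) (t • c) + 1) hm
  omega

end Pool.Agent.H482Z.HG
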